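import Pool.Agent.P8H10.HG.RH
import Pool.Agent.Helper386.D5V.Helper386_FF_Loc4
import Pool.Agent.W603.LV.Hgt
import Mathlib.FieldTheory.FinTrdeg

/-!
The function fields of the prime ideals of a polynomial ring (helper10).
-/

set_option autoImplicit false

open FF Pool.Agent.W603.LV Pool.Agent.W603.PV MvPolynomial

namespace Pool.Agent.P8H10.HY

variable {k : Type} [Field k] {σ : Type} [Finite σ]

section field

variable (P : Ideal (MvPolynomial σ k)) [P.IsPrime]

/-- the function field of the subvariety with the prime ideal `P` -/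
abbrev FP : Type := FractionRing (MvPolynomial σ k ⧸ P)

/-- the restriction of polynomials -/
noncomputable def ev : MvPolynomial σ k →ₐ[k] FP P :=
  (IsScalarTower.toAlgHom k (MvPolynomial σ k ⧸ P) (FP P)).comp (Ideal.Quotient.mkₐ k P)

omit [Finite σ] in
theorem ev_eq_zero {F : MvPolynomial σ k} : ev P F = 0 ↔ F ∈ P := by
  unfold ev
  rw [AlgHom.comp_apply, IsScalarTower.coe_toAlgHom', map_eq_zero_iff _
    (IsFractionRing.injective (MvPolynomial σ k ⧸ P) (FP P)), Ideal.Quotient.mkₐ_eq_mk,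
    Ideal.Quotient.eq_zero_iff_mem]

omit [Finite σ] in
theorem ev_div (z : FP P) : ∃ F G : MvPolynomial σ k, z = ev P F / ev P G := by
  obtain ⟨a, b, -, hz⟩ := IsFractionRing.div_surjective (A := MvPolynomial σ k ⧸ P) z
  obtain ⟨F, rfl⟩ := Ideal.Quotient.mk_surjective a
  obtain ⟨G, rfl⟩ := Ideal.Quotient.mk_surjective b
  exact ⟨F, G, hz.symm⟩

omit [Finite σ] in
theorem aeval_ev (F : MvPolynomial σ k) : aeval (fun v => ev P (X v)) F = ev P F := by
  have h1 : (aeval (fun v => ev P (X v)) : MvPolynomial σ k →ₐ[k] FP P) = ev P := by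
    apply MvPolynomial.algHom_ext
    intro v
    rw [aeval_X]
  rw [h1]

instance ess : Algebra.EssFiniteType k (FP P) := by
  have h1 : Algebra.EssFiniteType (MvPolynomial σ k ⧸ P) (FP P) :=
    Algebra.EssFiniteType.of_isLocalization (FP P) (nonZeroDivisors (MvPolynomial σ k ⧸ P))
  exact Algebra.EssFiniteType.comp k (MvPolynomial σ k ⧸ P) (FP P)

theorem exists_trdeg : ∃ d : ℕ, Algebra.trdeg k (FP P) = d := by
  obtain ⟨d, hd⟩ := Cardinal.lt_aleph0.1 (trdeg_lt_aleph0 k (FP P))
  exact ⟨d, hd⟩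

end field

theorem isFF_of {P : Ideal (MvPolynomial σ k)} [P.IsPrime] {d : ℕ}
    (hd : Algebra.trdeg k (FP P) = d)
    (hd1 : d ≤ 1) {t : FP P} (ht : Transcendental k t) : IsFF k (FP P) := by
  refine ⟨inferInstance, ?_⟩
  have h1 : Algebra.Transcendental k (FP P) := ⟨t, ht⟩
  have h2 : Algebra.trdeg k (FP P) ≠ 0 := _root_.trdeg_ne_zero_iff.2 h1
  rw [hd] at h2 ⊢
  have h3 : d ≠ 0 := fun h => h2 (by rw [h]; simp)
  have h4 : d = 1 := by omega
  rw [h4]
  simp

/-- Curves are components. -/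
theorem prime_eq {P Q : Ideal (MvPolynomial σ k)} [P.IsPrime] [Q.IsPrime]
    (hQP : Q ≤ P) {d : ℕ} (hd : Algebra.trdeg k (FP Q) = d) (hd1 : d ≤ 1) {v : σ}
    (hv : Transcendental k (ev P (X v))) : Q = P := by
  by_contra hne
  obtain ⟨f, hfP, hfQ⟩ := SetLike.exists_of_lt (lt_of_le_of_ne hQP hne)
  have ha : Transcendental k (ev Q (X v)) := by
    rintro ⟨p, hp0, hp⟩
    apply hv
    refine ⟨p, hp0, ?_⟩
    rw [Polynomial.aeval_algHom_apply] at hp ⊢
    rw [ev_eq_zero] at hp ⊢
    exact hQP hp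
  have hff := isFF_of hd hd1 ha
  have hb := IsFF.basis ha
  have halg : Algebra.IsAlgebraic (Algebra.adjoin k (Set.range fun _ : Unit => ev Q (X v))) (FP Q) :=
    hb.isAlgebraic
  rw [Set.range_const] at halg
  have hf0 : ev Q f ≠ 0 := fun h => hfQ ((ev_eq_zero Q).1 h)
  obtain ⟨q, hq0, hq⟩ := (halg.isAlgebraic (ev Q f)).exists_nonzero_coeff_and_aeval_eq_zero
    (mem_nonZeroDivisors_of_ne_zero hf0)
  have hc : ∀ i, ∃ p : Polynomial k, Polynomial.aeval (ev Q (X v)) p = (q.coeff i : FP Q) := by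
    intro i
    have h1 : ((q.coeff i : _) : FP Q) ∈ (Polynomial.aeval (R := k) (ev Q (X v))).range := by
      rw [← Algebra.adjoin_singleton_eq_range_aeval]
      exact (q.coeff i).2
    exact h1
  choose p hp using hc
  let G : MvPolynomial σ k :=
    ∑ i ∈ Finset.range (q.natDegree + 1), Polynomial.aeval (X v) (p i) * f ^ i
  have hGQ : G ∈ Q := by
    rw [← ev_eq_zero]
    simp only [G, map_sum, map_mul, map_pow, ← Polynomial.aeval_algHom_apply]
    rw [Polynomial.aeval_eq_sum_range] at hq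
    rw [← hq]
    refine Finset.sum_congr rfl fun i _ => ?_
    rw [Algebra.smul_def, hp i]
    rfl
  have h2 : ev P G = Polynomial.aeval (ev P (X v)) (p 0) := by
    simp only [G, map_sum, map_mul, map_pow, (ev_eq_zero P).2 hfP]
    rw [Finset.sum_range_succ', Finset.sum_eq_zero fun i _ => by rw [pow_succ, mul_zero, mul_zero]]
    rw [pow_zero, mul_one, zero_add, Polynomial.aeval_algHom_apply]
  have h3 : ev P G = 0 := (ev_eq_zero P).2 (hQP hGQ)
  rw [h2] at h3
  have h4 : p 0 = 0 := by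
    by_contra h
    exact hv ⟨p 0, h, h3⟩
  apply hq0
  have h5 := hp 0
  rw [h4, map_zero] at h5
  exact Subtype.ext h5.symm

/-- Homomorphisms of function fields. -/
theorem hom_ff [IsAlgClosed k] [CharZero k] {F K : Type} [Field F] [Field K] [Algebra k F]
    [Algebra k K] [IsFF k K] (φ : F →ₐ[k] K) {t : F} (ht : Transcendental k t) :
    ∃ _ : IsFF k F, ∃ N : ℕ, 1 ≤ N ∧ (∀ f, hgt k (φ f) = N * hgt k f) ∧
      N * canDeg k F ≤ canDeg k K := by
  let _ : Algebra F K := φ.toRingHom.toAlgebra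
  have : IsScalarTower k F K := IsScalarTower.of_algebraMap_eq fun c => (φ.commutes c).symm
  have halg : Algebra.IsAlgebraic F K := by
    rw [← _root_.trdeg_eq_zero_iff]
    by_contra h
    have h1 := _root_.trdeg_add_eq k F (A := K)
    rw [IsFF.trdeg (k := k) (K := K)] at h1
    have h2 : Algebra.trdeg k F ≠ 0 := _root_.trdeg_ne_zero_iff.2 ⟨t, ht⟩
    have h3 := Cardinal.one_le_iff_ne_zero.2 h
    have h4 := Cardinal.one_le_iff_ne_zero.2 h2
    have h5 := add_le_add h4 h3
    rw [h1] at h5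
    exact absurd h5 (by norm_num)
  have hF : IsFF k F := IsFF.of_isAlgebraic (K' := K)
  have hess : Algebra.EssFiniteType k K := IsFF.ess
  have hess' : Algebra.EssFiniteType F K := Algebra.EssFiniteType.of_comp k F K
  have hfin : Module.Finite F K := Algebra.finite_of_essFiniteType_of_isAlgebraic
  exact ⟨hF, Module.finrank F K, Module.finrank_pos, fun f => hgt_algebraMap (k := k) (L := K) f,
    Pool.Agent.P8H10.HG.canDeg_le⟩

omit [Finite σ] in
/-- the field of a point -/
theorem exists_hom {K : Type} [Field K] [Algebra k K] (z : σ → K) :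
    ∃ (P : Ideal (MvPolynomial σ k)) (_ : P.IsPrime) (φ : FP P →ₐ[k] K),
      (∀ F, F ∈ P ↔ aeval z F = 0) ∧ ∀ F, φ (ev P F) = aeval z F := by
  let g0 : MvPolynomial σ k →ₐ[k] K := aeval z
  let P : Ideal (MvPolynomial σ k) := RingHom.ker g0
  have hP : P.IsPrime := RingHom.ker_isPrime g0
  let g : (MvPolynomial σ k ⧸ P) →ₐ[k] K := Ideal.Quotient.liftₐ P g0 fun a ha => ha
  have hg : Function.Injective g := by
    rw [injective_iff_map_eq_zero]
    intro a ha
    obtain ⟨F, rfl⟩ := Ideal.Quotient.mk_surjective a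
    exact Ideal.Quotient.eq_zero_iff_mem.2 ha
  refine ⟨P, hP, IsFractionRing.liftAlgHom hg, fun F => Iff.rfl, fun F => ?_⟩
  rw [IsFractionRing.liftAlgHom_apply]
  exact IsFractionRing.lift_algebraMap hg _

end Pool.Agent.P8H10.HY
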