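import Pool.Agent.P8H50.SG.ADefs

/-!
Projective varieties with a finite morphism to a system of cyclic covers of a product of projective
lines: definitions (helper10, on top of the definitions of helper50).
-/

set_option autoImplicit false

open MvPolynomial FF Pool.Agent.W603.LV Pool.Agent.W602.GT Pool.Agent.P8H50.SG

namespace Pool.Agent.P8H10.HY

/-- the index set of the coordinates `u c` of the projective space of dimension `N` and the
coordinates `x j`, `y j`, `w i` of `X` -/
abbrev IY (N n r : ℕ) : Type := Fin (N + 1) ⊕ ((Fin n ⊕ Fin n) ⊕ Fin r)

section
variable {A : Type} {N n r : ℕ} (z : IY N n r → A)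

/-- the coordinates `u c` in the family `z` of all coordinates -/
abbrev cu (c : Fin (N + 1)) : A := z (Sum.inl c)

/-- the coordinates `x j` in the family `z` of all coordinates -/
abbrev cx (j : Fin n) : A := z (Sum.inr (Sum.inl (Sum.inl j)))

/-- the coordinates `y j` in the family `z` of all coordinates -/
abbrev cy (j : Fin n) : A := z (Sum.inr (Sum.inl (Sum.inr j)))

/-- the coordinates `w i` in the family `z` of all coordinates -/
abbrev cw (i : Fin r) : A := z (Sum.inr (Sum.inr i))

end

variable {k : Type} [Field k] {N n r : ℕ} (S : Sys k n r)

/-- the degrees of the coordinates: the degree in `u`, and the multidegree in `x`, `y`, `w` -/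
def wt : IY N n r → ℕ × (Fin n → ℕ) := Sum.elim (fun _ => (1, 0)) fun v => (0, S.weight v)

/-- `G` is a form: homogeneous in `u`, and multihomogeneous in `x`, `y`, `w` -/
def IsFormY (G : MvPolynomial (IY N n r) k) (d : ℕ × (Fin n → ℕ)) : Prop :=
  G.IsWeightedHomogeneous (wt S) d

variable (Ψ : Set (MvPolynomial (IY N n r) k))

section
variable {K : Type} [Field K] [Algebra k K]

/-- `z = (u, x, y, w)` are homogeneous coordinates of a `K`-valued point of the closed subset `Y` of
the product of the projective space and `X` which is given by the set `Ψ` of forms. -/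
structure YPoint (z : IY N n r → K) : Prop where
  ne : ∃ c, cu z c ≠ 0
  point : S.Point (cx z) (cy z) (cw z)
  zero : ∀ F ∈ Ψ, aeval z F = 0

/-- the quotients of the values of two forms of the same degrees -/
def ratiosY (z : IY N n r → K) : Set K :=
  {g | ∃ (G H : MvPolynomial (IY N n r) k) (d : ℕ × (Fin n → ℕ)), IsFormY S G d ∧ IsFormY S H d ∧
    aeval z H ≠ 0 ∧ g = aeval z G / aeval z H}

/-- `K` is the function field, and `z` the generic point, of a closed subvariety of dimension `d` of
`Y`. -/
structure SubY (d : ℕ) (z : IY N n r → K) : Prop where
  point : YPoint S Ψ z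
  gen : IntermediateField.adjoin k (ratiosY S z) = ⊤
  dim : Algebra.trdeg k K = d

end

/-- The projection from `Y` to `X` is finite: the dimension of each closed subvariety of `Y` is the
dimension of its image in the product of the projective lines, that is, its function field is
algebraic over the field of the functions `x j / y j`. -/
def FiniteOver : Prop := ∀ (K : Type) [Field K] [Algebra k K] (d : ℕ) (z : IY N n r → K),
  SubY S Ψ d z →
    Algebra.IsAlgebraic (IntermediateField.adjoin k (Set.range fun j => cx z j / cy z j)) K

/-- `Y` is algebraically hyperbolic: all morphisms to `Y` from smooth projective curves of genus `g`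
have degree at most `A max (2 g - 2, 0)`, with respect to the pullback of `O(1, …, 1)` from the
product of the projective lines. -/
def AlgHypY (A : ℕ) : Prop := ∀ (K : Type) [Field K] [Algebra k K] [IsFF k K] (z : IY N n r → K),
  YPoint S Ψ z → degree k (cx z) (cy z) ≤ A * max (canDeg k K) 0

/-- For each smooth projective curve, the degrees of the morphisms from this curve to `Y` are
bounded. -/
def BoundedY : Prop := ∀ (K : Type) [Field K] [Algebra k K] [IsFF k K], ∃ B : ℤ,
  ∀ z : IY N n r → K, YPoint S Ψ z → degree k (cx z) (cy z) ≤ B

/-- The morphisms from the curves of genus at most one to `Y` are constant: they have degree zero. -/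
def LowGenusY : Prop := ∀ (K : Type) [Field K] [Algebra k K] [IsFF k K] (z : IY N n r → K),
  canDeg k K ≤ 0 → YPoint S Ψ z → degree k (cx z) (cy z) = 0

/-- The morphisms from the multiplicative group, and from the curves of genus one, to `Y` are
constant. (The former have homogeneous coordinates which are polynomials.) -/
def GroupMapsConstantY : Prop :=
  (∀ z : IY N n r → Polynomial k,
    (∀ t : k, t ≠ 0 → YPoint S Ψ fun v => (z v).eval t) → ∀ j (t t' : k), t ≠ 0 → t' ≠ 0 →
      (cx z j).eval t * (cy z j).eval t' = (cx z j).eval t' * (cy z j).eval t) ∧
  ∀ (K : Type) [Field K] [Algebra k K] [IsFF k K] (z : IY N n r → K),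
    canDeg k K = 0 → YPoint S Ψ z → degree k (cx z) (cy z) = 0

/-- All closed subvarieties of positive dimension of `Y` are of general type. -/
def AllGeneralTypeY : Prop := ∀ (K : Type) [Field K] [Algebra k K] (d : ℕ) (z : IY N n r → K),
  1 ≤ d → SubY S Ψ d z → GeneralType k K d

/-- the equations of the part of `Y` over the zero locus of the coordinates `w i` -/
def zpy : Set (MvPolynomial (IY N n r) k) := Ψ ∪ Set.range fun i => X (Sum.inr (Sum.inr i))

/-- The closed subvarieties of `Y` over the zero locus of the coordinates `w i` have dimension at
most one. -/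
def ThinY : Prop := ∀ (K : Type) [Field K] [Algebra k K] (d : ℕ) (z : IY N n r → K),
  SubY S (zpy Ψ) d z → d ≤ 1

end Pool.Agent.P8H10.HY
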