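import Pool.Agent.P8H10.HY.Tfae
import Pool.Agent.P8H10.HG.Gm

/-!
Varieties over grids (helper10): morphisms from the multiplicative group.
-/

set_option autoImplicit false

open FF Pool.Agent.W603.LV Pool.Agent.W603.PV MvPolynomial Pool.Agent.P8H50.SG
open Pool.Agent.W602.GT (GeneralType)
open scoped IntermediateField

namespace Pool.Agent.P8H10.HY

variable {k : Type} [Field k] {N n r : ℕ}

variable {S : Sys k n r} {Ψ : Set (MvPolynomial (IY N n r) k)}

theorem eval_pv (z : IY N n r → Polynomial k) (F : MvPolynomial (IY N n r) k) (s : k) :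
    (aeval z F).eval s = aeval (fun v => (z v).eval s) F := by
  have h1 : (Polynomial.aeval s).comp (aeval z) =
      (aeval (fun v => (z v).eval s) : MvPolynomial (IY N n r) k →ₐ[k] k) := by
    apply MvPolynomial.algHom_ext
    intro v
    rw [AlgHom.comp_apply, aeval_X, aeval_X, Polynomial.coe_aeval_eq_eval]
  have h2 := congrArg (fun φ => φ F) h1
  simp only [AlgHom.comp_apply] at h2
  rw [← h2, Polynomial.coe_aeval_eq_eval]

theorem rat_pv (z : IY N n r → Polynomial k) (F : MvPolynomial (IY N n r) k) :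
    aeval (fun v => algebraMap (Polynomial k) (RatFunc k) (z v)) F =
      algebraMap (Polynomial k) (RatFunc k) (aeval z F) := by
  have h1 : (IsScalarTower.toAlgHom k (Polynomial k) (RatFunc k)).comp (aeval z) =
      (aeval (fun v => algebraMap (Polynomial k) (RatFunc k) (z v)) :
        MvPolynomial (IY N n r) k →ₐ[k] RatFunc k) := by
    apply MvPolynomial.algHom_ext
    intro v
    rw [AlgHom.comp_apply, aeval_X, aeval_X]
    rfl
  have h2 := congrArg (fun φ => φ F) h1
  exact h2.symm

/-- coprime homogeneous coordinates -/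
theorem exists_cop {u : Fin (N + 1) → RatFunc k} (hu : ∃ c, u c ≠ 0) :
    ∃ (t0 : RatFunc k) (U a : Fin (N + 1) → Polynomial k), t0 ≠ 0 ∧
      (∀ c, t0 * u c = algebraMap (Polynomial k) (RatFunc k) (U c)) ∧ ∑ c, a c * U c = 1 := by
  classical
  obtain ⟨b, hb⟩ := IsLocalization.exist_integer_multiples_of_finite (nonZeroDivisors (Polynomial k)) u
  have hinj := FaithfulSMul.algebraMap_injective (Polynomial k) (RatFunc k)
  choose U0 hU0 using hb
  obtain ⟨g, hg⟩ := (IsPrincipalIdealRing.principal (Ideal.span (Set.range U0))).principal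
  have hb0 : algebraMap (Polynomial k) (RatFunc k) b ≠ 0 := by
    intro h
    exact nonZeroDivisors.coe_ne_zero b ((map_eq_zero_iff _ hinj).1 h)
  have h1 : ∀ c, algebraMap (Polynomial k) (RatFunc k) b * u c =
      algebraMap (Polynomial k) (RatFunc k) (U0 c) := by
    intro c
    rw [hU0 c, Algebra.smul_def]
  have h2 : ∀ c, ∃ U, U0 c = g * U := by
    intro c
    have h3 : U0 c ∈ Ideal.span (Set.range U0) := Ideal.subset_span ⟨c, rfl⟩
    rw [hg] at h3
    exact Ideal.mem_span_singleton.1 h3
  choose U hU using h2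
  have hg0 : g ≠ 0 := by
    rintro rfl
    obtain ⟨c, hc⟩ := hu
    have h3 := h1 c
    rw [hU c, zero_mul, map_zero] at h3
    exact hc ((mul_eq_zero.1 h3).resolve_left hb0)
  have h3 : g ∈ Ideal.span (Set.range U0) := by
    rw [hg]
    exact Ideal.mem_span_singleton_self g
  obtain ⟨a, ha⟩ := (Ideal.mem_span_range_iff_exists_fun).1 h3
  have hga : algebraMap (Polynomial k) (RatFunc k) g ≠ 0 := fun h =>
    hg0 ((map_eq_zero_iff _ hinj).1 h)
  refine ⟨algebraMap (Polynomial k) (RatFunc k) b / algebraMap (Polynomial k) (RatFunc k) g, U, a,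
    div_ne_zero hb0 hga, fun c => ?_, ?_⟩
  · rw [div_mul_eq_mul_div, h1, hU c, map_mul, mul_div_cancel_left₀ _ hga]
  · apply mul_left_cancel₀ hg0
    rw [Finset.mul_sum, mul_one]
    conv_rhs => rw [← ha]
    refine Finset.sum_congr rfl fun c _ => ?_
    rw [hU c]
    ring

section

variable [IsAlgClosed k] [CharZero k]

theorem gm_of_low (h : LowGenusY S Ψ) (z : IY N n r → Polynomial k)
    (hp : ∀ t : k, t ≠ 0 → YPoint S Ψ fun v => (z v).eval t) (j : Fin n) (t t' : k)
    (ht : t ≠ 0) (ht' : t' ≠ 0) :
    (cx z j).eval t * (cy z j).eval t' = (cx z j).eval t' * (cy z j).eval t := by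
  have hinf : Infinite k := IsAlgClosed.instInfinite
  have hinj := FaithfulSMul.algebraMap_injective (Polynomial k) (RatFunc k)
  have hp1 := hp 1 one_ne_zero
  have hne : ∀ v, (z v).eval 1 ≠ 0 → algebraMap (Polynomial k) (RatFunc k) (z v) ≠ 0 := by
    intro v h1 h2
    apply h1
    rw [(map_eq_zero_iff _ hinj).1 h2, Polynomial.eval_zero]
  have hP : YPoint S Ψ (K := RatFunc k) fun v => algebraMap (Polynomial k) (RatFunc k) (z v) := by
    refine ⟨?_, ⟨fun j => ?_, fun i => ?_⟩, fun F hF => ?_⟩
    · obtain ⟨c, hc⟩ := hp1.ne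
      exact ⟨c, hne _ hc⟩
    · exact (hp1.point.ne j).imp (hne _) (hne _)
    · rw [← rp_aeval, rat_pv]
      change algebraMap (Polynomial k) (RatFunc k) (cw z i) ^ S.m i = _
      rw [← map_pow]
      congr 1
      refine Pool.Agent.P8H10.HG.poly_eq fun s hs => ?_
      rw [eval_pv, rp_aeval, Polynomial.eval_pow]
      exact (hp s hs).point.eq i
    · rw [rat_pv]
      have h1 : aeval z F = 0 := Pool.Agent.P8H10.HG.poly_eq fun s hs => by
        rw [eval_pv, Polynomial.eval_zero]
        exact (hp s hs).zero F hF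
      rw [h1, map_zero]
  have h0 := h (RatFunc k) _ (by
    rw [Pool.Agent.W619.PQ.canDeg_rational (x := (RatFunc.X : RatFunc k)) RatFunc.adjoin_X]
    norm_num) hP
  unfold P8H50.SG.degree at h0
  rw [Finset.sum_eq_zero_iff_of_nonneg fun j _ => hgt_nonneg _] at h0
  obtain ⟨c, hc⟩ := const_of_hgt (h0 j (Finset.mem_univ j)).le
  by_cases hy : cy z j = 0
  · rw [hy]
    simp
  · have hy' : algebraMap (Polynomial k) (RatFunc k) (cy z j) ≠ 0 := fun h2 =>
      hy ((map_eq_zero_iff _ hinj).1 h2)
    rw [div_eq_iff hy', IsScalarTower.algebraMap_apply k (Polynomial k) (RatFunc k),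
      ← map_mul] at hc
    rw [show cx z j = _ from hinj hc]
    simp only [Polynomial.eval_mul]
    have h3 : ∀ s, (algebraMap k (Polynomial k) c).eval s = c := fun s => by simp
    rw [h3, h3]
    ring

/-- Points over the rational function field. -/
theorem p1_of_gm (hS : S.Good) (hΨ : ∀ F ∈ Ψ, ∃ d, IsFormY S F d)
    (h : ∀ z : IY N n r → Polynomial k,
      (∀ t : k, t ≠ 0 → YPoint S Ψ fun v => (z v).eval t) → ∀ j (t t' : k), t ≠ 0 → t' ≠ 0 →
        (cx z j).eval t * (cy z j).eval t' = (cx z j).eval t' * (cy z j).eval t)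
    {z : IY N n r → RatFunc k} (hp : YPoint S Ψ z) (j : Fin n) :
    cy z j = 0 ∨ ∃ c : k, cx z j = algebraMap k (RatFunc k) c * cy z j := by
  have hinf : Infinite k := IsAlgClosed.instInfinite
  have hinj := FaithfulSMul.algebraMap_injective (Polynomial k) (RatFunc k)
  have h1 : ∀ j, ∃ (X Y : Polynomial k) (t : RatFunc k), t ≠ 0 ∧
      t * cx z j = algebraMap (Polynomial k) (RatFunc k) X ∧
      t * cy z j = algebraMap (Polynomial k) (RatFunc k) Y ∧ IsCoprime X Y := by
    intro j
    by_cases hy : cy z j = 0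
    · have hx := (hp.point.ne j).resolve_right (not_not.2 hy)
      refine ⟨1, 0, (cx z j)⁻¹, inv_ne_zero hx, ?_, ?_, isCoprime_one_left⟩
      · rw [inv_mul_cancel₀ hx, map_one]
      · rw [hy, mul_zero, map_zero]
    · have hd : algebraMap (Polynomial k) (RatFunc k) (cx z j / cy z j).denom ≠ 0 :=
        RatFunc.algebraMap_ne_zero (RatFunc.denom_ne_zero _)
      refine ⟨(cx z j / cy z j).num, (cx z j / cy z j).denom,
        algebraMap (Polynomial k) (RatFunc k) (cx z j / cy z j).denom / cy z j,
        div_ne_zero hd hy, ?_, ?_, RatFunc.isCoprime_num_denom _⟩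
      · have h2 := RatFunc.num_div_denom (cx z j / cy z j)
        rw [div_eq_iff hd] at h2
        rw [h2]
        field_simp
      · rw [div_mul_cancel₀ _ hy]
  choose X' Y' t ht hX hY hco using h1
  obtain ⟨t0, U, a, ht0, hU, hab⟩ := exists_cop hp.ne
  have hsc := hp.sc hS hΨ ht0 ht
  have h2 : ∀ i, ∃ W : Polynomial k, algebraMap (Polynomial k) (RatFunc k) W =
      (∏ j, t j ^ S.deg i j) * cw z i := by
    intro i
    have h3 : IsIntegral (Polynomial k) ((∏ j, t j ^ S.deg i j) * cw z i) := by
      refine IsIntegral.of_pow (S.m_pos hS i) ?_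
      have h5 := hsc.point.eq i
      change ((∏ j, t j ^ S.deg i j) * cw z i) ^ S.m i =
        S.rhs i (fun j => t j * cx z j) (fun j => t j * cy z j) at h5
      rw [h5, ← S.val_rp i _ _ (fun _ => 0)]
      have h4 : P8H50.SG.val k (fun j => t j * cx z j) (fun j => t j * cy z j) (fun _ => 0)
          (S.rp i) = algebraMap (Polynomial k) (RatFunc k)
            (Pool.Agent.P8H10.HG.pv X' Y' (fun _ => 0) (S.rp i)) := by
        rw [← Pool.Agent.P8H10.HG.rat_pv]
        simp only [hX, hY, map_zero]
      rw [h4]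
      exact isIntegral_algebraMap
    exact IsIntegrallyClosed.isIntegral_iff.1 h3
  choose W hW using h2
  let Z : IY N n r → Polynomial k := Sum.elim U (pt X' Y' W)
  have hZ : sc S t0 t z = fun v => algebraMap (Polynomial k) (RatFunc k) (Z v) := by
    funext v
    rcases v with c | (j | j) | i
    · exact hU c
    · exact hX j
    · exact hY j
    · exact (hW i).symm
  rw [hZ] at hsc
  have hpt : ∀ s : k, s ≠ 0 → YPoint S Ψ (K := k) fun v => (Z v).eval s := by
    intro s _
    refine ⟨?_, ⟨fun j => ?_, fun i => ?_⟩, fun F hF => ?_⟩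
    · by_contra hcon
      push Not at hcon
      have h3 := congrArg (Polynomial.eval s) hab
      rw [Polynomial.eval_finsetSum, Finset.sum_eq_zero, Polynomial.eval_one] at h3
      · exact zero_ne_one h3
      · intro c _
        rw [Polynomial.eval_mul]
        have h4 : (U c).eval s = 0 := hcon c
        rw [h4, mul_zero]
    · by_contra hcon
      push Not at hcon
      obtain ⟨u, v, huv⟩ := hco j
      have h3 := congrArg (Polynomial.eval s) huv
      have h4 : (X' j).eval s = 0 := hcon.1
      have h5 : (Y' j).eval s = 0 := hcon.2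
      rw [Polynomial.eval_add, Polynomial.eval_mul, Polynomial.eval_mul, h4, h5,
        Polynomial.eval_one] at h3
      simp at h3
    · have h3 : cw Z i ^ S.m i = aeval Z (rename Sum.inr (S.rp i)) := by
        apply hinj
        rw [← rat_pv, rp_aeval, map_pow]
        exact hsc.point.eq i
      rw [← rp_aeval (fun v => (Z v).eval s) i, ← eval_pv, ← h3, Polynomial.eval_pow]
    · have h3 : aeval Z F = 0 := by
        apply hinj
        rw [← rat_pv, hsc.zero F hF, map_zero]
      rw [← eval_pv, h3, Polynomial.eval_zero]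
  have hgm : ∀ s s' : k, s ≠ 0 → s' ≠ 0 →
      (X' j).eval s * (Y' j).eval s' = (X' j).eval s' * (Y' j).eval s := h Z hpt j
  by_cases hY1 : (Y' j).eval 1 = 0
  · left
    have hX1 : (X' j).eval 1 ≠ 0 := ((hpt 1 one_ne_zero).point.ne j).resolve_right (not_not.2 hY1)
    have h3 : Y' j = 0 := Pool.Agent.P8H10.HG.poly_eq fun s hs => by
      have h4 := hgm 1 s one_ne_zero hs
      rw [hY1, mul_zero] at h4
      rw [Polynomial.eval_zero]
      exact (mul_eq_zero.1 h4).resolve_left hX1
    have h4 := hY j
    rw [h3, map_zero] at h4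
    exact (mul_eq_zero.1 h4).resolve_left (ht j)
  · right
    refine ⟨(X' j).eval 1 / (Y' j).eval 1, ?_⟩
    have h3 : X' j = Polynomial.C ((X' j).eval 1 / (Y' j).eval 1) * Y' j :=
      Pool.Agent.P8H10.HG.poly_eq fun s hs => by
        have h4 := hgm s 1 hs one_ne_zero
        rw [Polynomial.eval_mul, Polynomial.eval_C, div_mul_eq_mul_div, eq_div_iff hY1, h4]
    have h4 : t j * cx z j =
        t j * (algebraMap k (RatFunc k) ((X' j).eval 1 / (Y' j).eval 1) * cy z j) := by
      rw [hX j, h3, map_mul, ← hY j, IsScalarTower.algebraMap_apply k (Polynomial k) (RatFunc k),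
        Polynomial.algebraMap_eq]
      simp only [Polynomial.eval_mul, Polynomial.eval_C]
      rw [div_mul_cancel₀ _ hY1]
      ring
    exact mul_left_cancel₀ (ht j) h4

/-- **Groups and curves of genus at most one.** -/
theorem low_iff_group (hS : S.Good) (hΨ : ∀ F ∈ Ψ, ∃ d, IsFormY S F d) :
    LowGenusY S Ψ ↔ GroupMapsConstantY S Ψ := by
  constructor
  · intro h
    exact ⟨gm_of_low h, fun K _ _ _ z hK hp => h K z hK.le hp⟩
  · rintro ⟨h1, h2⟩ K _ _ _ z hK hp
    rcases hK.lt_or_eq with hlt | heq
    · obtain ⟨t, ht⟩ := Pool.Agent.TH143.GE.rational_of_neg hlt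
      have htr : Transcendental k t := by
        intro halg
        obtain ⟨s, hs⟩ := IsFF.exists_transcendental (k := k) (K := K)
        apply hs
        have h1 : s ∈ k⟮t⟯ := by rw [ht]; exact IntermediateField.mem_top
        have h2 : Algebra.IsAlgebraic k k⟮t⟯ := IntermediateField.isAlgebraic_adjoin_simple
          halg.isIntegral
        have h3 := h2.isAlgebraic (⟨s, h1⟩ : k⟮t⟯)
        exact (isAlgebraic_algebraMap_iff (algebraMap k⟮t⟯ K).injective).2 h3
      let e : RatFunc k ≃ₐ[k] K := (RatFunc.algEquivOfTranscendental t htr).trans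
        ((IntermediateField.equivOfEq ht).trans IntermediateField.topEquiv)
      have hp' := hp.map (e.symm : K →ₐ[k] RatFunc k)
      unfold P8H50.SG.degree
      refine Finset.sum_eq_zero fun j _ => ?_
      rcases p1_of_gm hS hΨ h1 hp' j with h3 | ⟨c, hc⟩
      · have h4 : cy z j = 0 := e.symm.injective (by rw [map_zero]; exact h3)
        rw [h4, div_zero, ← map_zero (algebraMap k K)]
        exact hgt_const 0
      · by_cases hy : cy z j = 0
        · rw [hy, div_zero, ← map_zero (algebraMap k K)]
          exact hgt_const 0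
        · have h4 : cx z j = algebraMap k K c * cy z j := e.symm.injective (by
            rw [map_mul, AlgEquiv.commutes]
            exact hc)
          rw [h4, mul_div_cancel_right₀ _ hy]
          exact hgt_const c
    · exact h2 K z heq hp

end

end Pool.Agent.P8H10.HY
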