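import Pool.Agent.P8H10.HY.Defs
import Pool.Agent.P8H50.SG.Alg
import Pool.Agent.P8H50.SG.Dim

/-!
Varieties over grids (helper10): scaling of the coordinates.
-/

set_option autoImplicit false

open MvPolynomial FF Pool.Agent.W603.LV Pool.Agent.W602.GT Pool.Agent.P8H50.SG

namespace Pool.Agent.P8H10.HY

variable {k : Type} [Field k] {N n r : ℕ} (S : Sys k n r) {Ψ : Set (MvPolynomial (IY N n r) k)}

variable {K : Type} [Field K] [Algebra k K]

/-- the scaled coordinates -/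
def sc (t0 : K) (t : Fin n → K) (z : IY N n r → K) : IY N n r → K :=
  Sum.elim (fun c => t0 * cu z c) (pt (fun j => t j * cx z j) (fun j => t j * cy z j)
    fun i => (∏ j, t j ^ S.deg i j) * cw z i)

theorem sc_eq (t0 : K) (t : Fin n → K) (z : IY N n r → K) (v : IY N n r) :
    sc S t0 t z v = (t0 ^ (wt S v).1 * ∏ j, t j ^ (wt S v).2 j) * z v := by
  rcases v with c | v
  · simp [sc, wt]
  · have h1 := S.pt_scale t (cx z) (cy z) (cw z) v
    have h2 : pt (cx z) (cy z) (cw z) v = z (Sum.inr v) := by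
      rcases v with (j | j) | i <;> rfl
    rw [h2] at h1
    simpa [sc, wt] using h1

theorem aeval_sc (t0 : K) (t : Fin n → K) (z : IY N n r → K) {G : MvPolynomial (IY N n r) k}
    {d : ℕ × (Fin n → ℕ)} (hG : IsFormY S G d) :
    aeval (sc S t0 t z) G = (t0 ^ d.1 * ∏ j, t j ^ d.2 j) * aeval z G := by
  classical
  rw [aeval_def, aeval_def, eval₂_eq', eval₂_eq', Finset.mul_sum]
  refine Finset.sum_congr rfl fun D hD => ?_
  have h1 : Finsupp.weight (wt S) D = d := hG (mem_support_iff.1 hD)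
  have h2 : ∀ j, ∑ v, (wt (N := N) S v).2 j * D v = d.2 j := by
    intro j
    rw [← h1, Finsupp.weight_apply, Finsupp.sum_fintype _ _ (by simp), Prod.snd_sum,
      Finset.sum_apply]
    refine Finset.sum_congr rfl fun v _ => ?_
    simp [mul_comm]
  have h3 : ∑ v, (wt (N := N) S v).1 * D v = d.1 := by
    rw [← h1, Finsupp.weight_apply, Finsupp.sum_fintype _ _ (by simp), Prod.fst_sum]
    refine Finset.sum_congr rfl fun v _ => ?_
    simp [mul_comm]
  have h4 : t0 ^ d.1 * ∏ j, t j ^ d.2 j =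
      ∏ v, (t0 ^ (wt (N := N) S v).1 * ∏ j, t j ^ (wt (N := N) S v).2 j) ^ D v := by
    simp only [mul_pow, Finset.prod_mul_distrib, ← Finset.prod_pow, ← pow_mul]
    rw [Finset.prod_pow_eq_pow_sum, h3, Finset.prod_comm]
    congr 1
    refine Finset.prod_congr rfl fun j _ => ?_
    rw [Finset.prod_pow_eq_pow_sum, h2]
  rw [h4]
  have h5 : ∏ v, sc S t0 t z v ^ D v =
      (∏ v, (t0 ^ (wt (N := N) S v).1 * ∏ j, t j ^ (wt (N := N) S v).2 j) ^ D v) *
        ∏ v, z v ^ D v := by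
    rw [← Finset.prod_mul_distrib]
    refine Finset.prod_congr rfl fun v _ => ?_
    rw [sc_eq, mul_pow]
  rw [h5]
  ring

variable {S}

theorem fac_ne {t0 : K} (h0 : t0 ≠ 0) {t : Fin n → K} (ht : ∀ j, t j ≠ 0)
    (d : ℕ × (Fin n → ℕ)) : t0 ^ d.1 * ∏ j, t j ^ d.2 j ≠ 0 :=
  mul_ne_zero (pow_ne_zero _ h0) (Sys.prod_ne ht d.2)

theorem YPoint.sc (hS : S.Good) (hΨ : ∀ F ∈ Ψ, ∃ d, IsFormY S F d) {t0 : K} (h0 : t0 ≠ 0)
    {t : Fin n → K} (ht : ∀ j, t j ≠ 0) {z : IY N n r → K} (h : YPoint S Ψ z) :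
    YPoint S Ψ (sc S t0 t z) where
  ne := by
    obtain ⟨c, hc⟩ := h.ne
    exact ⟨c, mul_ne_zero h0 hc⟩
  point := Sys.Point.scale S hS ht h.point
  zero F hF := by
    obtain ⟨d, hd⟩ := hΨ F hF
    rw [aeval_sc S t0 t z hd, h.zero F hF, mul_zero]

theorem ratiosY_sc {t0 : K} (h0 : t0 ≠ 0) {t : Fin n → K} (ht : ∀ j, t j ≠ 0)
    (z : IY N n r → K) : ratiosY S (sc S t0 t z) = ratiosY S z := by
  ext g
  constructor
  · rintro ⟨G, H, d, hG, hH, hne, rfl⟩
    rw [aeval_sc S t0 t z hH] at hne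
    refine ⟨G, H, d, hG, hH, (mul_ne_zero_iff.1 hne).2, ?_⟩
    rw [aeval_sc S t0 t z hH, aeval_sc S t0 t z hG, mul_div_mul_left _ _ (fac_ne h0 ht d)]
  · rintro ⟨G, H, d, hG, hH, hne, rfl⟩
    refine ⟨G, H, d, hG, hH, ?_, ?_⟩
    · rw [aeval_sc S t0 t z hH]
      exact mul_ne_zero (fac_ne h0 ht d) hne
    · rw [aeval_sc S t0 t z hH, aeval_sc S t0 t z hG, mul_div_mul_left _ _ (fac_ne h0 ht d)]

theorem SubY.sc (hS : S.Good) (hΨ : ∀ F ∈ Ψ, ∃ d, IsFormY S F d) {t0 : K} (h0 : t0 ≠ 0)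
    {t : Fin n → K} (ht : ∀ j, t j ≠ 0) {z : IY N n r → K} {d : ℕ} (h : SubY S Ψ d z) :
    SubY S Ψ d (sc S t0 t z) where
  point := h.point.sc hS hΨ h0 ht
  gen := by rw [ratiosY_sc h0 ht, h.gen]
  dim := h.dim

/-- normalised coordinates -/
def NrmY (z : IY N n r → K) : Prop := (∃ c, cu z c = 1) ∧ Normal (cx z) (cy z)

theorem exists_nrm {z : IY N n r → K} (h : YPoint S Ψ z) :
    ∃ (t0 : K) (t : Fin n → K), t0 ≠ 0 ∧ (∀ j, t j ≠ 0) ∧ NrmY (HY.sc S t0 t z) := by
  obtain ⟨c, hc⟩ := h.ne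
  refine ⟨(cu z c)⁻¹, Sys.nf (cx z) (cy z), inv_ne_zero hc, S.nf_ne h.point, ⟨c, ?_⟩,
    S.nf_normal h.point⟩
  exact inv_mul_cancel₀ hc

theorem degree_sc {t0 : K} {t : Fin n → K} (ht : ∀ j, t j ≠ 0) (z : IY N n r → K) :
    degree k (cx (HY.sc S t0 t z)) (cy (HY.sc S t0 t z)) = degree k (cx z) (cy z) :=
  degree_scale ht (cx z) (cy z)

theorem aeval_mem {L : IntermediateField k K} {z : IY N n r → K} (hz : ∀ v, z v ∈ L)
    (G : MvPolynomial (IY N n r) k) : aeval z G ∈ L := by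
  have h1 : aeval z G ∈ Algebra.adjoin k (Set.range z) := by
    rw [Algebra.adjoin_range_eq_range_aeval]
    exact ⟨G, rfl⟩
  have h2 : Algebra.adjoin k (Set.range z) ≤ L.toSubalgebra := by
    rw [Algebra.adjoin_le_iff]
    rintro _ ⟨v, rfl⟩
    exact hz v
  exact h2 h1

theorem coord_mem {L : IntermediateField k K} {z : IY N n r → K} (hN : NrmY z)
    (hu : ∀ c, cu z c ∈ L) (hx : ∀ j, cx z j ∈ L) (hw : ∀ i, cw z i ∈ L) : ∀ v, z v ∈ L := by
  rintro (c | (j | j) | i)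
  · exact hu c
  · exact hx j
  · exact Sys.Normal.y_mem hN.2 L j
  · exact hw i

/-- the function field of a subvariety is generated by the normalised coordinates -/
theorem top_leY {d : ℕ} {z : IY N n r → K} (V : SubY S Ψ d z) {L : IntermediateField k K}
    (hz : ∀ v, z v ∈ L) : L = ⊤ := by
  rw [eq_top_iff, ← V.gen, IntermediateField.adjoin_le_iff]
  rintro _ ⟨G, H, d, -, -, -, rfl⟩
  exact L.div_mem (aeval_mem hz G) (aeval_mem hz H)

theorem alg_x (hF : FiniteOver S Ψ) {d : ℕ} {z : IY N n r → K} (hN : NrmY z)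
    (V : SubY S Ψ d z) :
    Algebra.IsAlgebraic (IntermediateField.adjoin k (Set.range (cx z))) K := by
  refine alg_le ?_ (hF K d z V)
  rw [IntermediateField.adjoin_le_iff]
  rintro _ ⟨j, rfl⟩
  change cx z j / cy z j ∈ _
  rcases hN.2 j with h | ⟨-, h⟩
  · rw [h, div_one]
    exact IntermediateField.subset_adjoin k _ ⟨j, rfl⟩
  · rw [h, div_zero]
    exact zero_mem _

/-- **Closed subvarieties outside of the zero locus are of general type.** -/
theorem general_typeY [IsAlgClosed k] [CharZero k] (hS : S.Good)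
    (hΨ : ∀ F ∈ Ψ, ∃ d, IsFormY S F d) (hF : FiniteOver S Ψ) {d : ℕ} (hd : 1 ≤ d)
    {z : IY N n r → K} (V : SubY S Ψ d z) {i : Fin r} (hi : cw z i ≠ 0) :
    GeneralType k K d := by
  obtain ⟨t0, t, h0, ht, hN⟩ := exists_nrm V.point
  have V' := V.sc hS hΨ h0 ht
  refine general (q := S.q i) (a := S.a i) (b := S.b i) (e := S.e i) (m := S.m i) (f := S.deg i)
    (hS.three i) (fun j l l' hl => ?_) (hS.pos i) (S.sum_e hS i) (S.m_pos hS i) ?_ hN.2
    (mul_ne_zero (Sys.prod_ne ht (S.deg i)) hi) (V'.point.point.eq i) (alg_x hF hN V') hd V.dim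
  · have := hS.indep j ⟨i, l⟩ ⟨i, l'⟩ (by simpa using hl)
    exact this
  · have h1 := hS.small i
    have hm : (0 : ℝ) < S.m i := by exact_mod_cast S.m_pos hS i
    have h2 : ∑ j, (∑ l, (S.e i j l : ℝ)) / ((S.q i j : ℝ) - 2) =
        S.m i * ∑ j, (S.deg i j : ℝ) / ((S.q i j : ℝ) - 2) := by
      rw [Finset.mul_sum]
      refine Finset.sum_congr rfl fun j _ => ?_
      have h3 : (∑ l, (S.e i j l : ℝ)) = S.m i * S.deg i j := by exact_mod_cast S.sum_e hS i j
      rw [h3, mul_div_assoc]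
    rw [h2] at h1
    nlinarith

/-- The dimension of the part over the zero locus. -/
theorem dim_zeroY (hS : S.Good) (hΨ : ∀ F ∈ Ψ, ∃ d, IsFormY S F d) (hF : FiniteOver S Ψ) {d : ℕ}
    {z : IY N n r → K} (V : SubY S Ψ d z) (hw : ∀ i, cw z i = 0) : d + r ≤ n := by
  classical
  obtain ⟨t0, t, h0, ht, hN⟩ := exists_nrm V.point
  have V' := V.sc hS hΨ h0 ht
  have hw' : ∀ i, cw (HY.sc S t0 t z) i = 0 := fun i => by
    change _ * cw z i = 0
    rw [hw i, mul_zero]
  obtain ⟨σ, hσ, hz⟩ := S.zero_sigma hS V'.point.point hw'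
  set x' : Fin n → K := cx (HY.sc S t0 t z) with hx'
  set y' : Fin n → K := cy (HY.sc S t0 t z) with hy'
  have hc : ∀ i, ∃ c : k, x' (σ i) = algebraMap k K c := by
    intro i
    obtain ⟨l, hl⟩ := hz i
    obtain ⟨c, -, h, -⟩ := S.const_of_zero hS (hN.2 (σ i)) hl
    exact ⟨c, h⟩
  set T : Finset (Fin n) := (Finset.univ.image σ)ᶜ with hT
  have hcard : T.card + r = n := by
    have h1 : (Finset.univ.image σ).card = r := by
      rw [Finset.card_image_of_injective _ hσ]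
      simp
    have h2 := Finset.card_add_card_compl (Finset.univ.image σ)
    rw [h1, Fintype.card_fin, ← hT] at h2
    omega
  set s : Set K := x' '' T with hs
  have halg : Algebra.IsAlgebraic (IntermediateField.adjoin k s) K := by
    refine alg_le ?_ (alg_x hF hN V')
    rw [IntermediateField.adjoin_le_iff]
    rintro _ ⟨j, rfl⟩
    by_cases hj : j ∈ T
    · exact IntermediateField.subset_adjoin k _ ⟨j, hj, rfl⟩
    · rw [hT, Finset.mem_compl, not_not] at hj
      obtain ⟨i, -, rfl⟩ := Finset.mem_image.1 hj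
      obtain ⟨c, hc⟩ := hc i
      change x' (σ i) ∈ _
      rw [hc]
      exact (IntermediateField.adjoin k s).algebraMap_mem c
  have halg' : Algebra.IsAlgebraic (Algebra.adjoin k s) K := alg_adjoin halg
  obtain ⟨t, ht', hb⟩ := exists_isTranscendenceBasis_subset (R := k) (A := K) s
  have h3 : Cardinal.mk t = d := by
    have h := hb.cardinalMk_eq_trdeg
    rwa [V.dim] at h
  have h4 : Cardinal.mk t ≤ T.card := by
    refine (Cardinal.mk_le_mk_of_subset ht').trans ?_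
    refine Cardinal.mk_image_le.trans ?_
    simp
  rw [h3] at h4
  have h5 : d ≤ T.card := by exact_mod_cast h4
  omega

end Pool.Agent.P8H10.HY
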