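import Pool.Agent.P8H10.HY.Core
import Pool.Agent.P8H10.HY.Sc
import Pool.Agent.P8H10.HG.Tfae

/-!
Varieties over grids (helper10): curves in the part over the zero locus.
-/

set_option autoImplicit false

open FF Pool.Agent.W603.LV Pool.Agent.W603.PV MvPolynomial Pool.Agent.P8H50.SG
open Pool.Agent.W602.GT (GeneralType)

namespace Pool.Agent.P8H10.HY

variable {k : Type} [Field k] {N n r : ℕ}

/-- the normalised equations -/
noncomputable def eqs (S : Sys k n r) (Ψ : Set (MvPolynomial (IY N n r) k)) :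
    Set (MvPolynomial (IY N n r) k) := Ψ ∪ {∏ c : Fin (N + 1), (X (Sum.inl c) - 1)} ∪
  Set.range (fun i => X (Sum.inr (Sum.inr i))) ∪
  Set.range (fun i => rename Sum.inr (S.rp i)) ∪
  Set.range (fun j => (X (Sum.inr (Sum.inl (Sum.inr j))) - 1) *
    (X (Sum.inr (Sum.inl (Sum.inl j))) - 1)) ∪
  Set.range (fun j => (X (Sum.inr (Sum.inl (Sum.inr j))) - 1) * X (Sum.inr (Sum.inl (Sum.inr j))))

/-- the ideal of the normalised points of `Y` over the zero locus -/
noncomputable def zidY (S : Sys k n r) (Ψ : Set (MvPolynomial (IY N n r) k)) :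
    Ideal (MvPolynomial (IY N n r) k) := Ideal.span (eqs S Ψ)

variable {S : Sys k n r} {Ψ : Set (MvPolynomial (IY N n r) k)}

theorem rp_aeval {K : Type} [Field K] [Algebra k K] (z : IY N n r → K) (i : Fin r) :
    aeval z (rename Sum.inr (S.rp i)) = S.rhs i (cx z) (cy z) := by
  rw [aeval_rename, ← S.val_rp i (cx z) (cy z) (cw z)]
  unfold P8H50.SG.val
  congr 1
  congr 1
  funext v
  rcases v with (j | j) | i <;> rfl

/-- the normalised points of `Y` over the zero locus -/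
theorem eqs_iff {K : Type} [Field K] [Algebra k K] (hS : S.Good) (z : IY N n r → K) :
    (∀ F ∈ eqs S Ψ, aeval z F = 0) ↔ YPoint S Ψ z ∧ NrmY z ∧ ∀ i, cw z i = 0 := by
  constructor
  · intro h
    have hw : ∀ i, cw z i = 0 := fun i => by
      have := h _ (Or.inl (Or.inl (Or.inl (Or.inr ⟨i, rfl⟩))))
      rwa [aeval_X] at this
    have hu : ∃ c, cu z c = 1 := by
      have := h _ (Or.inl (Or.inl (Or.inl (Or.inl (Or.inr rfl)))))
      rw [map_prod, Finset.prod_eq_zero_iff] at this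
      obtain ⟨c, -, hc⟩ := this
      rw [map_sub, aeval_X, map_one, sub_eq_zero] at hc
      exact ⟨c, hc⟩
    have hN : Normal (cx z) (cy z) := by
      intro j
      have h1 : (cy z j - 1) * (cx z j - 1) = 0 := by
        have := h _ (Or.inl (Or.inr ⟨j, rfl⟩))
        simpa using this
      have h2 : (cy z j - 1) * cy z j = 0 := by
        have := h _ (Or.inr ⟨j, rfl⟩)
        simpa using this
      by_cases h0 : cy z j = 1
      · exact Or.inl h0
      · have h3 : cy z j - 1 ≠ 0 := sub_ne_zero.2 h0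
        exact Or.inr ⟨sub_eq_zero.1 ((mul_eq_zero.1 h1).resolve_left h3),
          (mul_eq_zero.1 h2).resolve_left h3⟩
    refine ⟨⟨?_, ⟨fun j => ?_, fun i => ?_⟩, fun F hF =>
      h F (Or.inl (Or.inl (Or.inl (Or.inl (Or.inl hF)))))⟩, ⟨hu, hN⟩, hw⟩
    · obtain ⟨c, hc⟩ := hu
      exact ⟨c, by rw [hc]; exact one_ne_zero⟩
    · rcases hN j with h | ⟨h, -⟩
      · right
        rw [h]
        exact one_ne_zero
      · left
        rw [h]
        exact one_ne_zero
    · rw [hw i, zero_pow (S.m_pos hS i).ne', ← rp_aeval z i]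
      exact (h _ (Or.inl (Or.inl (Or.inr ⟨i, rfl⟩)))).symm
  · rintro ⟨h, hN, hw⟩ F (((((hF | hF) | ⟨i, rfl⟩) | ⟨i, rfl⟩) | ⟨j, rfl⟩) | ⟨j, rfl⟩)
    · exact h.zero F hF
    · rw [Set.mem_singleton_iff.1 hF, map_prod]
      obtain ⟨c, hc⟩ := hN.1
      refine Finset.prod_eq_zero (Finset.mem_univ c) ?_
      rw [map_sub, aeval_X, map_one]
      exact sub_eq_zero.2 hc
    · rw [aeval_X]
      exact hw i
    · rw [rp_aeval, ← h.point.eq i, hw i, zero_pow (S.m_pos hS i).ne']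
    · have h1 := hN.2 j
      simp only [map_mul, map_sub, map_one, aeval_X]
      rcases h1 with h1 | ⟨h1, -⟩
      · change (cy z j - 1) * _ = 0
        rw [h1]; ring
      · change _ * (cx z j - 1) = 0
        rw [h1]; ring
    · have h1 := hN.2 j
      simp only [map_mul, map_sub, map_one, aeval_X]
      rcases h1 with h1 | ⟨-, h1⟩
      · change (cy z j - 1) * _ = 0
        rw [h1]; ring
      · change _ * cy z j = 0
        rw [h1]; ring

theorem zidY_le_iff {P : Ideal (MvPolynomial (IY N n r) k)} :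
    zidY S Ψ ≤ P ↔ ∀ F ∈ eqs S Ψ, F ∈ P := by
  unfold zidY
  rw [Ideal.span_le]
  rfl

/-- the generic point of a prime ideal -/
noncomputable def gz (P : Ideal (MvPolynomial (IY N n r) k)) [P.IsPrime] (v : IY N n r) : FP P :=
  ev P (X v)

theorem aeval_gz (P : Ideal (MvPolynomial (IY N n r) k)) [P.IsPrime]
    (F : MvPolynomial (IY N n r) k) : aeval (gz P) F = ev P F := aeval_ev P F

theorem gz_spec (hS : S.Good) {P : Ideal (MvPolynomial (IY N n r) k)} [P.IsPrime]
    (hP : zidY S Ψ ≤ P) : YPoint S Ψ (gz P) ∧ NrmY (gz P) ∧ ∀ i, cw (gz P) i = 0 := by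
  rw [← eqs_iff hS]
  intro F hF
  rw [aeval_gz, ev_eq_zero]
  exact zidY_le_iff.1 hP F hF

theorem val_cw {K : Type} [Field K] [Algebra k K] (z : IY N n r → K) (i : Fin r) :
    aeval z (X (Sum.inr (Sum.inr i)) : MvPolynomial (IY N n r) k) = cw z i := aeval_X _ _

theorem point_zpy {K : Type} [Field K] [Algebra k K] {z : IY N n r → K} :
    YPoint S (zpy Ψ) z ↔ YPoint S Ψ z ∧ ∀ i, cw z i = 0 := by
  constructor
  · intro h
    refine ⟨⟨h.ne, h.point, fun F hF => h.zero F (Or.inl hF)⟩, fun i => ?_⟩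
    rw [← val_cw (k := k) z i]
    exact h.zero _ (Or.inr ⟨i, rfl⟩)
  · rintro ⟨h, hw⟩
    refine ⟨h.ne, h.point, ?_⟩
    rintro F (hF | ⟨i, rfl⟩)
    · exact h.zero F hF
    · rw [val_cw z i, hw]

theorem sub_zpy {K : Type} [Field K] [Algebra k K] {z : IY N n r → K} {d : ℕ} :
    SubY S (zpy Ψ) d z ↔ SubY S Ψ d z ∧ ∀ i, cw z i = 0 :=
  ⟨fun h => ⟨⟨(point_zpy.1 h.point).1, h.gen, h.dim⟩, (point_zpy.1 h.point).2⟩,
    fun h => ⟨point_zpy.2 ⟨h.1.point, h.2⟩, h.1.gen, h.1.dim⟩⟩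

theorem form_X (S : Sys k n r) (v : IY N n r) : IsFormY S (X v) (wt S v) :=
  MvPolynomial.isWeightedHomogeneous_X _ _ _

theorem form_zpy (hΨ : ∀ F ∈ Ψ, ∃ d, IsFormY S F d) : ∀ F ∈ zpy Ψ, ∃ d, IsFormY S F d := by
  rintro F (hF | ⟨i, rfl⟩)
  · exact hΨ F hF
  · exact ⟨_, form_X S _⟩

theorem gz_sub (hS : S.Good) {P : Ideal (MvPolynomial (IY N n r) k)} [P.IsPrime]
    (hP : zidY S Ψ ≤ P) {d : ℕ} (hd : Algebra.trdeg k (FP P) = d) : SubY S Ψ d (gz P) where
  point := (gz_spec hS hP).1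
  gen := by
    obtain ⟨-, hN, hw⟩ := gz_spec hS hP
    set L := IntermediateField.adjoin k (ratiosY S (gz P)) with hL
    obtain ⟨c0, hc0⟩ := hN.1
    have hv : ∀ v, gz P v ∈ L := by
      refine coord_mem hN (fun c => ?_) (fun j => ?_) fun i => ?_
      · refine IntermediateField.subset_adjoin k _ ⟨X (Sum.inl c), X (Sum.inl c0), (1, 0),
          form_X S (Sum.inl c), form_X S (Sum.inl c0), ?_, ?_⟩
        · rw [aeval_X]
          change cu (gz P) c0 ≠ 0
          rw [hc0]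
          exact one_ne_zero
        · rw [aeval_X, aeval_X]
          change cu (gz P) c = cu (gz P) c / cu (gz P) c0
          rw [hc0, div_one]
      · rcases hN.2 j with h | ⟨h, -⟩
        · refine IntermediateField.subset_adjoin k _ ⟨X (Sum.inr (Sum.inl (Sum.inl j))),
            X (Sum.inr (Sum.inl (Sum.inr j))), (0, Pi.single j 1), form_X S _, form_X S _, ?_, ?_⟩
          · rw [aeval_X]
            change cy (gz P) j ≠ 0
            rw [h]
            exact one_ne_zero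
          · rw [aeval_X, aeval_X]
            change cx (gz P) j = cx (gz P) j / cy (gz P) j
            rw [h, div_one]
        · rw [h]
          exact L.one_mem
      · rw [hw i]
        exact L.zero_mem
    rw [eq_top_iff]
    intro f _
    obtain ⟨F, G, rfl⟩ := ev_div P f
    rw [← aeval_gz, ← aeval_gz]
    exact L.div_mem (aeval_mem hv F) (aeval_mem hv G)
  dim := hd

/-- the degree of the component with the prime ideal `P` -/
noncomputable def dd (P : Ideal (MvPolynomial (IY N n r) k)) : ℕ :=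
  open scoped Classical in
  if h : P.IsPrime then (P8H50.SG.degree k (cx (gz P)) (cy (gz P))).toNat else 0

theorem dd_eq (P : Ideal (MvPolynomial (IY N n r) k)) [h : P.IsPrime] :
    dd P = (P8H50.SG.degree k (cx (gz P)) (cy (gz P))).toNat := by
  unfold dd
  rw [dif_pos h]

/-- **Curves in the part over the zero locus.** -/
theorem curve [IsAlgClosed k] [CharZero k] (hS : S.Good) (hT : ThinY S Ψ)
    (hΨ : ∀ F ∈ Ψ, ∃ d, IsFormY S F d) {K : Type} [Field K] [Algebra k K] [IsFF k K]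
    {z : IY N n r → K} (h : YPoint S (zpy Ψ) z) (hdeg : P8H50.SG.degree k (cx z) (cy z) ≠ 0) :
    ∃ (P : Ideal (MvPolynomial (IY N n r) k)) (_ : P.IsPrime) (_ : IsFF k (FP P)) (m : ℕ), 1 ≤ m ∧
      P ∈ (zidY S Ψ).minimalPrimes ∧
      P8H50.SG.degree k (cx z) (cy z) = m * P8H50.SG.degree k (cx (gz P)) (cy (gz P)) ∧
      m * canDeg k (FP P) ≤ canDeg k K := by
  classical
  obtain ⟨t0, t, h0, ht, hN⟩ := exists_nrm h
  have h' := h.sc hS (form_zpy hΨ) h0 ht
  rw [← degree_sc (S := S) (t0 := t0) ht z] at hdeg ⊢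
  set z' := sc S t0 t z with hz'
  obtain ⟨hp, hw⟩ := point_zpy.1 h'
  obtain ⟨P, hP, φ, hφ1, hφ2⟩ := exists_hom (k := k) z'
  have hle : zidY S Ψ ≤ P := by
    rw [zidY_le_iff]
    intro F hF
    rw [hφ1]
    exact (eqs_iff hS z').2 ⟨hp, hN, hw⟩ F hF
  have h1 : ∃ j0, Transcendental k (cx z' j0) := by
    by_contra hcon
    push Not at hcon
    apply hdeg
    unfold P8H50.SG.degree
    exact Finset.sum_eq_zero fun j _ => hgt_alg hN.2 (hcon j)
  obtain ⟨j0, hj0⟩ := h1
  have hφz : ∀ v, φ (gz P v) = z' v := fun v => by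
    rw [gz, hφ2, aeval_X]
  have ht0 : Transcendental k (cx (gz P) j0) := by
    rintro ⟨p, hp0, hp⟩
    refine hj0 ⟨p, hp0, ?_⟩
    have h2 := hφz (Sum.inr (Sum.inl (Sum.inl j0)))
    change φ (cx (gz P) j0) = cx z' j0 at h2
    rw [← h2, Polynomial.aeval_algHom_apply, hp, map_zero]
  obtain ⟨hff, m, hm1, hm2, hm3⟩ := hom_ff φ ht0
  refine ⟨P, hP, hff, m, hm1, ?_, ?_, hm3⟩
  · refine ⟨⟨hP, hle⟩, fun Q hQ hQP => ?_⟩
    have hQ1 := hQ.1
    obtain ⟨d, hd⟩ := exists_trdeg Q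
    have hd1 := hT (FP Q) d (gz Q) (sub_zpy.2 ⟨gz_sub hS hQ.2 hd, (gz_spec hS hQ.2).2.2⟩)
    exact (prime_eq hQP hd hd1 (v := Sum.inr (Sum.inl (Sum.inl j0))) ht0).ge
  · unfold P8H50.SG.degree
    rw [Finset.mul_sum]
    refine Finset.sum_congr rfl fun j _ => ?_
    rw [← hm2, map_div₀]
    congr 2
    · exact (hφz _).symm
    · exact (hφz _).symm

/-- the curves over the zero locus have bounded degrees if they have genus at least two -/
theorem exists_bound_zero [IsAlgClosed k] [CharZero k] (hS : S.Good) (hT : ThinY S Ψ)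
    (hΨ : ∀ F ∈ Ψ, ∃ d, IsFormY S F d) (hlow : LowGenusY S (zpy Ψ)) :
    ∃ B : ℕ, AlgHypY S (zpy Ψ) B := by
  classical
  have hfin : (zidY S Ψ).minimalPrimes.Finite := Ideal.finite_minimalPrimes_of_isNoetherianRing _ _
  refine ⟨∑ P ∈ hfin.toFinset, dd P, fun K _ _ _ z h => ?_⟩
  by_cases hdeg : P8H50.SG.degree k (cx z) (cy z) = 0
  · rw [hdeg]
    exact mul_nonneg (Int.natCast_nonneg _) (le_max_right _ _)
  obtain ⟨P, hP, hff, m, hm1, hPm, hd, hc⟩ := curve hS hT hΨ h hdeg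
  have hle : zidY S Ψ ≤ P := hPm.1.2
  have hd0 : P8H50.SG.degree k (cx (gz P)) (cy (gz P)) ≠ 0 := by
    intro h0
    rw [h0, mul_zero] at hd
    exact hdeg hd
  have hsp := gz_spec hS hle
  have hcan : 0 < canDeg k (FP P) := by
    by_contra hcon
    exact hd0 (hlow (FP P) (gz P) (not_lt.1 hcon) (point_zpy.2 ⟨hsp.1, hsp.2.2⟩))
  have h1 : (dd P : ℤ) = P8H50.SG.degree k (cx (gz P)) (cy (gz P)) := by
    rw [dd_eq, Int.toNat_of_nonneg (degree_nonneg _ _)]
  have h2 : dd P ≤ ∑ P ∈ hfin.toFinset, dd P :=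
    Finset.single_le_sum (f := dd) (fun _ _ => Nat.zero_le _) (hfin.mem_toFinset.2 hPm)
  have h3 : (m : ℤ) ≤ canDeg k K := by
    refine le_trans ?_ hc
    have : (1 : ℤ) ≤ canDeg k (FP P) := hcan
    nlinarith
  have h4 : 0 ≤ canDeg k K := le_trans (by positivity) h3
  rw [hd, ← h1, max_eq_left h4]
  have h5 : ((dd P : ℕ) : ℤ) ≤ ((∑ P ∈ hfin.toFinset, dd P : ℕ) : ℤ) := by exact_mod_cast h2
  calc (m : ℤ) * dd P ≤ canDeg k K * dd P := mul_le_mul_of_nonneg_right h3 (Int.natCast_nonneg _)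
    _ ≤ canDeg k K * ((∑ P ∈ hfin.toFinset, dd P : ℕ) : ℤ) := mul_le_mul_of_nonneg_left h5 h4
    _ = _ := by ring

end Pool.Agent.P8H10.HY
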