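import Pool.Agent.P8H10.HY.Tfae

/-!
Varieties over grids (helper10): proper closed subvarieties of irreducible varieties.
-/

set_option autoImplicit false

open FF Pool.Agent.W603.LV Pool.Agent.W603.PV MvPolynomial Pool.Agent.P8H50.SG
open Pool.Agent.W602.GT (GeneralType)

namespace Pool.Agent.P8H10.HY

variable {k : Type} [Field k]

/-- Proper closed subvarieties have smaller dimensions. -/
theorem trdeg_lt {σ : Type} {K L : Type} [Field K] [Field L] [Algebra k K] [Algebra k L]
    {z : σ → K} {z0 : σ → L} (h : ∀ F : MvPolynomial σ k, aeval z0 F = 0 → aeval z F = 0)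
    {f : MvPolynomial σ k} (hf : aeval z f = 0) (hf0 : aeval z0 f ≠ 0)
    (htop : IntermediateField.adjoin k (Set.range z) = ⊤) {d d0 : ℕ}
    (hd : Algebra.trdeg k K = d) (hd0 : Algebra.trdeg k L = d0) : d < d0 := by
  classical
  have halg : Algebra.IsAlgebraic (IntermediateField.adjoin k (Set.range z)) K := by
    refine ⟨fun u => ?_⟩
    have h1 : u ∈ IntermediateField.adjoin k (Set.range z) := by rw [htop]; trivial
    exact isAlgebraic_algebraMap (⟨u, h1⟩ : IntermediateField.adjoin k (Set.range z))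
  have halg' : Algebra.IsAlgebraic (Algebra.adjoin k (Set.range z)) K :=
    Pool.Agent.W602.GT.alg_adjoin halg
  obtain ⟨t, ht, hb⟩ := exists_isTranscendenceBasis_subset (R := k) (A := K) (Set.range z)
  have h3 : Cardinal.mk t = d := by
    have h := hb.cardinalMk_eq_trdeg
    rwa [hd] at h
  have h4 : ∀ a : t, ∃ v, z v = a := fun a => ht a.2
  choose c hc using h4
  have hx0 : ∀ p : MvPolynomial t k, aeval z (rename c p) = aeval (Subtype.val : t → K) p := by
    intro p
    rw [aeval_rename]
    congr 1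
    congr 1
    funext a
    exact hc a
  have hx : AlgebraicIndependent k fun a : t => z0 (c a) := by
    rw [algebraicIndependent_iff]
    intro p hp
    have h5 : aeval z0 (rename c p) = 0 := by
      rw [aeval_rename]
      exact hp
    have h6 := h _ h5
    rw [hx0] at h6
    exact (algebraicIndependent_iff.1 hb.1) p h6
  have htr : Transcendental (Algebra.adjoin k (Set.range fun a : t => z0 (c a))) (aeval z0 f) := by
    intro hcon
    obtain ⟨q, hq0, hq⟩ := hcon.exists_nonzero_coeff_and_aeval_eq_zero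
      (mem_nonZeroDivisors_of_ne_zero hf0)
    have hc' : ∀ i, ∃ p : MvPolynomial t k, aeval (fun a : t => z0 (c a)) p = (q.coeff i : L) := by
      intro i
      have h1 : ((q.coeff i : _) : L) ∈ (aeval (R := k) fun a : t => z0 (c a)).range := by
        rw [← Algebra.adjoin_range_eq_range_aeval]
        exact (q.coeff i).2
      exact h1
    choose p hp using hc'
    let G : MvPolynomial σ k :=
      ∑ i ∈ Finset.range (q.natDegree + 1), rename c (p i) * f ^ i
    have hG0 : aeval z0 G = 0 := by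
      simp only [G, map_sum, map_mul, map_pow]
      rw [Polynomial.aeval_eq_sum_range] at hq
      rw [← hq]
      refine Finset.sum_congr rfl fun i _ => ?_
      rw [Algebra.smul_def, aeval_rename]
      congr 1
      exact hp i
    have h2 : aeval z G = aeval (Subtype.val : t → K) (p 0) := by
      simp only [G, map_sum, map_mul, map_pow, hf]
      rw [Finset.sum_range_succ', Finset.sum_eq_zero fun i _ => by rw [pow_succ, mul_zero, mul_zero]]
      rw [pow_zero, mul_one, zero_add, hx0]
    have h5 := (algebraicIndependent_iff.1 hb.1) (p 0) (by rw [← h2, h G hG0])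
    apply hq0
    have h6 := hp 0
    rw [h5, map_zero] at h6
    exact Subtype.ext h6.symm
  have h5 := ((hx.option_iff_transcendental (aeval z0 f)).2 htr).cardinalMk_le_trdeg
  rw [hd0, Cardinal.mk_option, h3] at h5
  have h6 : d + 1 ≤ d0 := by exact_mod_cast h5
  omega

variable {N n r : ℕ} {S : Sys k n r} {Ψ : Set (MvPolynomial (IY N n r) k)}

/-- homogenisation -/
theorem homog (S : Sys k n r) (F : MvPolynomial (IY N n r) k) (c0 : Fin (N + 1))
    (h : Fin n → IY N n r) (hh : ∀ j, wt S (h j) = (0, Pi.single j 1)) :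
    ∃ (G : MvPolynomial (IY N n r) k) (d : ℕ × (Fin n → ℕ)), IsFormY S G d ∧
      ∀ (K : Type) [Field K] [Algebra k K] (z : IY N n r → K), z (Sum.inl c0) = 1 →
        (∀ j, z (h j) = 1) → aeval z G = aeval z F := by
  classical
  let ω : (IY N n r →₀ ℕ) → ℕ × (Fin n → ℕ) := fun D => Finsupp.weight (wt S) D
  let B : ℕ × (Fin n → ℕ) := ∑ D ∈ F.support, ω D
  have hB : ∀ D ∈ F.support, ω D ≤ B := fun D hD =>
    Finset.single_le_sum (f := ω) (fun _ _ => zero_le) hD
  let T : (IY N n r →₀ ℕ) → MvPolynomial (IY N n r) k := fun D =>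
    (X (Sum.inl c0) ^ (B.1 - (ω D).1) * ∏ j, X (h j) ^ (B.2 j - (ω D).2 j)) *
      monomial D (F.coeff D)
  refine ⟨∑ D ∈ F.support, T D, B, ?_, fun K _ _ z h0 h1 => ?_⟩
  · have h1 : ∑ D ∈ F.support, T D ∈ weightedHomogeneousSubmodule k (wt S) B := by
      refine Submodule.sum_mem _ fun D hD => ?_
      rw [mem_weightedHomogeneousSubmodule]
      have e1 : IsWeightedHomogeneous (wt S) (monomial D (F.coeff D)) (ω D) :=
        isWeightedHomogeneous_monomial _ _ _ rfl
      have e2 : IsWeightedHomogeneous (wt S) (X (Sum.inl c0) ^ (B.1 - (ω D).1) :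
          MvPolynomial (IY N n r) k) ((B.1 - (ω D).1) • wt (N := N) S (Sum.inl c0)) :=
        (isWeightedHomogeneous_X _ _ _).pow _
      have e3 : IsWeightedHomogeneous (wt S) (∏ j, X (h j) ^ (B.2 j - (ω D).2 j) :
          MvPolynomial (IY N n r) k) (∑ j, (B.2 j - (ω D).2 j) • wt S (h j)) :=
        IsWeightedHomogeneous.prod _ _ _ fun j _ => (isWeightedHomogeneous_X _ _ _).pow _
      have e4 := (e2.mul e3).mul e1
      have e5 : (B.1 - (ω D).1) • wt (N := N) S (Sum.inl c0) +
          ∑ j, (B.2 j - (ω D).2 j) • wt S (h j) + ω D = B := by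
        have hle := hB D hD
        have hc : wt (N := N) S (Sum.inl c0) = (1, 0) := rfl
        simp only [hh, hc]
        apply Prod.ext
        · simp only [Prod.fst_add, Prod.fst_sum, Prod.smul_fst, smul_zero, Finset.sum_const_zero,
            add_zero, smul_eq_mul, mul_one, mul_zero]
          have h9 : (ω D).1 ≤ B.1 := hle.1
          omega
        · funext j
          simp only [Prod.snd_add, Prod.snd_sum, Prod.smul_snd,
            Pi.add_apply, Finset.sum_apply, Pi.smul_apply, smul_zero, Pi.zero_apply, zero_add]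
          rw [Finset.sum_eq_single j]
          · rw [Pi.single_eq_same, smul_eq_mul, mul_one]
            have h9 : (ω D).2 j ≤ B.2 j := hle.2 j
            omega
          · intro b _ hb
            rw [Pi.single_eq_of_ne (Ne.symm hb), smul_zero]
          · intro hj
            exact absurd (Finset.mem_univ j) hj
      rw [e5] at e4
      exact e4
    exact (mem_weightedHomogeneousSubmodule k (wt S) B _).1 h1
  · rw [map_sum]
    conv_rhs => rw [F.as_sum, map_sum]
    refine Finset.sum_congr rfl fun D _ => ?_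
    simp only [T, map_mul, map_pow, map_prod, aeval_X, h0, h1, one_pow, Finset.prod_const_one,
      one_mul]

/-- **Proper closed subvarieties of an irreducible variety have smaller dimensions.** -/
theorem dim_lt (hS : S.Good) {L : Type} [Field L] [Algebra k L] {z0 : IY N n r → L} {d0 : ℕ}
    (V0 : SubY S ∅ d0 z0) {K : Type} [Field K] [Algebra k K] {z : IY N n r → K} {d : ℕ}
    (V : SubY S ∅ d z) (h : ∀ F d, IsFormY S F d → aeval z0 F = 0 → aeval z F = 0)
    {f : MvPolynomial (IY N n r) k} {e : ℕ × (Fin n → ℕ)} (hf : IsFormY S f e)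
    (hfz : aeval z f = 0) (hf0 : aeval z0 f ≠ 0) : d < d0 := by
  classical
  obtain ⟨t0, t, h0, ht, hN⟩ := exists_nrm V.point
  have he : ∀ F ∈ (∅ : Set (MvPolynomial (IY N n r) k)), ∃ d, IsFormY S F d := fun F hF =>
    absurd hF (Set.notMem_empty F)
  have V' := V.sc hS he h0 ht
  set z' := sc S t0 t z with hz'
  have h' : ∀ F d, IsFormY S F d → aeval z0 F = 0 → aeval z' F = 0 := by
    intro F d hF h1
    rw [hz', aeval_sc S t0 t z hF, h F d hF h1, mul_zero]
  have hne : ∀ v, z' v ≠ 0 → z0 v ≠ 0 := by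
    intro v hv h1
    apply hv
    have := h' (X v) _ (form_X S v) (by rw [aeval_X]; exact h1)
    rwa [aeval_X] at this
  obtain ⟨c0, hc0⟩ := hN.1
  have hex : ∀ j, ∃ v : IY N n r, wt S v = (0, Pi.single j 1) ∧ z' v = 1 := by
    intro j
    rcases hN.2 j with h1 | ⟨h1, -⟩
    · exact ⟨Sum.inr (Sum.inl (Sum.inr j)), rfl, h1⟩
    · exact ⟨Sum.inr (Sum.inl (Sum.inl j)), rfl, h1⟩
  choose hv hv1 hv2 using hex
  have hu0 : cu z0 c0 ≠ 0 := hne _ (by
    change cu z' c0 ≠ 0
    rw [hc0]
    exact one_ne_zero)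
  have hv0 : ∀ j, z0 (hv j) ≠ 0 := fun j => hne _ (by rw [hv2]; exact one_ne_zero)
  set s0 : L := (cu z0 c0)⁻¹ with hs0
  set s : Fin n → L := fun j => (z0 (hv j))⁻¹ with hs
  have hs00 : s0 ≠ 0 := inv_ne_zero hu0
  have hs1 : ∀ j, s j ≠ 0 := fun j => inv_ne_zero (hv0 j)
  set z1 := sc S s0 s z0 with hz1
  have e1 : z1 (Sum.inl c0) = 1 := inv_mul_cancel₀ hu0
  have e2 : ∀ j, z1 (hv j) = 1 := by
    intro j
    rw [hz1, sc_eq, hv1]
    simp only [pow_zero, one_mul]
    rw [Finset.prod_eq_single j]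
    · rw [Pi.single_eq_same, pow_one]
      exact inv_mul_cancel₀ (hv0 j)
    · intro b _ hb
      rw [Pi.single_eq_of_ne hb, pow_zero]
    · intro hj
      exact absurd (Finset.mem_univ j) hj
  have hker : ∀ F : MvPolynomial (IY N n r) k, aeval z1 F = 0 → aeval z' F = 0 := by
    intro F hF
    obtain ⟨G, dG, hG, hGz⟩ := homog S F c0 hv hv1
    rw [← hGz L z1 e1 e2, hz1, aeval_sc S s0 s z0 hG] at hF
    have h1 := (mul_eq_zero.1 hF).resolve_left (fac_ne hs00 hs1 dG)
    rw [← hGz K z' hc0 hv2]
    exact h' G dG hG h1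
  refine trdeg_lt hker (f := f) ?_ ?_ ?_ V'.dim V0.dim
  · rw [hz', aeval_sc S t0 t z hf, hfz, mul_zero]
  · rw [hz1, aeval_sc S s0 s z0 hf]
    exact mul_ne_zero (fac_ne hs00 hs1 e) hf0
  · exact top_leY V' fun v => IntermediateField.subset_adjoin k _ ⟨v, rfl⟩

/-- Irreducible surfaces which are not over the zero locus. -/
theorem thin_surface (hS : S.Good) {L : Type} [Field L] [Algebra k L] {z0 : IY N n r → L} {d0 : ℕ}
    (V0 : SubY S Ψ d0 z0) (hΨ : ∀ F d, IsFormY S F d → aeval z0 F = 0 → F ∈ Ψ) (hd0 : d0 ≤ 2)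
    {i : Fin r} (hi : cw z0 i ≠ 0) : ThinY S Ψ := by
  intro K _ _ d z V
  obtain ⟨V1, hw⟩ := sub_zpy.1 V
  have he : ∀ {K : Type} [Field K] [Algebra k K] {d : ℕ} {z : IY N n r → K}, SubY S Ψ d z →
      SubY S ∅ d z := fun V => ⟨⟨V.point.ne, V.point.point, fun F hF =>
    absurd hF (Set.notMem_empty F)⟩, V.gen, V.dim⟩
  have := dim_lt hS (he V0) (he V1) (fun F d hF h => V1.point.zero F (hΨ F d hF h))
    (form_X S (Sum.inr (Sum.inr i))) (by rw [aeval_X]; exact hw i) (by rw [aeval_X]; exact hi)
  omega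

end Pool.Agent.P8H10.HY
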