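import Pool.Agent.P8H10.HY.Lift

/-!
Varieties over grids (helper10): the notions of hyperbolicity.
-/

set_option autoImplicit false

open FF Pool.Agent.W603.LV Pool.Agent.W603.PV MvPolynomial Pool.Agent.P8H50.SG
open Pool.Agent.W602.GT (GeneralType)

namespace Pool.Agent.P8H10.HY

variable {k : Type} [Field k] {N n r : ℕ}

variable {S : Sys k n r} {Ψ : Set (MvPolynomial (IY N n r) k)}

theorem aeval_map {K L : Type} [Field K] [Field L] [Algebra k K] [Algebra k L] (φ : K →ₐ[k] L)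
    (z : IY N n r → K) (F : MvPolynomial (IY N n r) k) :
    aeval (fun v => φ (z v)) F = φ (aeval z F) := by
  have h1 : (aeval (fun v => φ (z v)) : MvPolynomial (IY N n r) k →ₐ[k] L) = φ.comp (aeval z) := by
    apply MvPolynomial.algHom_ext
    intro v
    rw [AlgHom.comp_apply, aeval_X, aeval_X]
  rw [h1]
  rfl

theorem YPoint.map {K L : Type} [Field K] [Field L] [Algebra k K] [Algebra k L] (φ : K →ₐ[k] L)
    {z : IY N n r → K} (h : YPoint S Ψ z) : YPoint S Ψ fun v => φ (z v) where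
  ne := by
    obtain ⟨c, hc⟩ := h.ne
    exact ⟨c, (_root_.map_ne_zero φ).2 hc⟩
  point :=
    { ne := fun j => (h.point.ne j).imp (fun h => (_root_.map_ne_zero φ).2 h)
        fun h => (_root_.map_ne_zero φ).2 h
      eq := fun i => by
        change φ (cw z i) ^ S.m i = _
        rw [← map_pow, h.point.eq i, ← rp_aeval z i, ← aeval_map φ, rp_aeval] }
  zero F hF := by rw [aeval_map, h.zero F hF, map_zero]

section

variable [IsAlgClosed k] [CharZero k]

/-- Bounded degrees and endomorphisms. -/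
theorem low_of_bdd (h : BoundedY S Ψ) : LowGenusY S Ψ := by
  intro K _ _ _ z hK hp
  obtain ⟨B, hB⟩ := h K
  obtain ⟨φ, m, hm, hφ⟩ : ∃ (φ : K →ₐ[k] K) (m : ℕ), 2 ≤ m ∧ ∀ f, hgt k (φ f) = m * hgt k f := by
    rcases hK.lt_or_eq with h1 | h1
    · exact Pool.Agent.Y735.EL.exists_sq h1
    · exact Pool.Agent.Y735.EL.exists_dup h1
  by_contra hne
  have hpos : 0 < P8H50.SG.degree k (cx z) (cy z) :=
    lt_of_le_of_ne (degree_nonneg _ _) (Ne.symm hne)
  have key : ∀ a : ℕ, ∃ z' : IY N n r → K, YPoint S Ψ z' ∧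
      (2 : ℤ) ^ a ≤ P8H50.SG.degree k (cx z') (cy z') := by
    intro a
    induction a with
    | zero => exact ⟨z, hp, by rw [pow_zero]; omega⟩
    | succ a ih =>
      obtain ⟨z', h1, h2⟩ := ih
      refine ⟨_, h1.map φ, ?_⟩
      have h3 : P8H50.SG.degree k (cx fun v => φ (z' v)) (cy fun v => φ (z' v)) =
          m * P8H50.SG.degree k (cx z') (cy z') := by
        unfold P8H50.SG.degree
        rw [Finset.mul_sum]
        exact Finset.sum_congr rfl fun j _ => by rw [← map_div₀, hφ]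
      rw [h3, pow_succ]
      have h5 : (2 : ℤ) ≤ m := by exact_mod_cast hm
      have h6 : (0 : ℤ) < 2 ^ a := by positivity
      nlinarith
  obtain ⟨z', h1, h2⟩ := key (B.toNat)
  have h6 := hB z' h1
  have h7 : ((B.toNat : ℕ) : ℤ) < 2 ^ B.toNat := by exact_mod_cast Nat.lt_two_pow_self
  have h8 := Int.self_le_toNat B
  omega

omit [IsAlgClosed k] [CharZero k] in
theorem dich {K : Type} [Field K] [Algebra k K] {z : IY N n r → K} (h : YPoint S Ψ z) :
    (∃ i, cw z i ≠ 0) ∨ YPoint S (zpy Ψ) z := by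
  by_cases hw : ∃ i, cw z i ≠ 0
  · exact Or.inl hw
  · push Not at hw
    exact Or.inr (point_zpy.2 ⟨h, hw⟩)

/-- a bound outside of the zero locus -/
theorem out (hS : S.Good) : ∃ A : ℕ, ∀ (K : Type) [Field K] [Algebra k K] [IsFF k K]
    (z : IY N n r → K), YPoint S Ψ z → (∃ i, cw z i ≠ 0) →
      P8H50.SG.degree k (cx z) (cy z) ≤ A * max (canDeg k K) 0 := by
  obtain ⟨A, hA⟩ := S.exists_bound hS
  exact ⟨A, fun K _ _ _ z h ⟨i, hi⟩ => S.degree_le hS hA h.point hi⟩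

/-- the notions for `Y` and for the part over the zero locus -/
theorem alg_iff (hS : S.Good) : (∃ A, AlgHypY S Ψ A) ↔ ∃ A, AlgHypY S (zpy Ψ) A := by
  constructor
  · rintro ⟨A, hA⟩
    exact ⟨A, fun K _ _ _ z h => hA K z (point_zpy.1 h).1⟩
  · rintro ⟨A, hA⟩
    obtain ⟨A', hA'⟩ := out (Ψ := Ψ) hS
    refine ⟨A + A', fun K _ _ _ z h => ?_⟩
    have h0 : (0 : ℤ) ≤ max (canDeg k K) 0 := le_max_right _ _
    push_cast
    rcases dich h with hw | hz
    · have := hA' K z h hw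
      have h1 : (0 : ℤ) ≤ A * max (canDeg k K) 0 := mul_nonneg (Int.natCast_nonneg _) h0
      linarith
    · have := hA K z hz
      have h1 : (0 : ℤ) ≤ A' * max (canDeg k K) 0 := mul_nonneg (Int.natCast_nonneg _) h0
      linarith

theorem bdd_iff (hS : S.Good) : BoundedY S Ψ ↔ BoundedY S (zpy Ψ) := by
  constructor
  · intro h K _ _ _
    obtain ⟨B, hB⟩ := h K
    exact ⟨B, fun z hp => hB z (point_zpy.1 hp).1⟩
  · intro h K _ _ _
    obtain ⟨B, hB⟩ := h K
    obtain ⟨A, hA⟩ := out (Ψ := Ψ) hS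
    refine ⟨max B (A * max (canDeg k K) 0), fun z hp => ?_⟩
    rcases dich hp with hw | hz
    · exact (hA K z hp hw).trans (le_max_right _ _)
    · exact (hB z hz).trans (le_max_left _ _)

theorem low_iff (hS : S.Good) : LowGenusY S Ψ ↔ LowGenusY S (zpy Ψ) := by
  constructor
  · intro h K _ _ _ z hK hp
    exact h K z hK (point_zpy.1 hp).1
  · intro h K _ _ _ z hK hp
    obtain ⟨A, hA⟩ := out (Ψ := Ψ) hS
    rcases dich hp with hw | hz
    · have h1 := hA K z hp hw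
      rw [max_eq_right hK, mul_zero] at h1
      exact le_antisymm h1 (degree_nonneg _ _)
    · exact h K z hK hz

theorem gt_iff (hS : S.Good) (hΨ : ∀ F ∈ Ψ, ∃ d, IsFormY S F d) (hF : FiniteOver S Ψ) :
    AllGeneralTypeY S Ψ ↔ AllGeneralTypeY S (zpy Ψ) := by
  constructor
  · intro h K _ _ d z hd V
    exact h K d z hd (sub_zpy.1 V).1
  · intro h K _ _ d z hd V
    rcases dich V.point with ⟨i, hi⟩ | hz
    · exact general_typeY hS hΨ hF hd V hi
    · exact h K d z hd (sub_zpy.2 ⟨V, (point_zpy.1 hz).2⟩)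

omit [IsAlgClosed k] [CharZero k] in
theorem finiteOver_zpy (hF : FiniteOver S Ψ) : FiniteOver S (zpy Ψ) :=
  fun K _ _ d z V => hF K d z (sub_zpy.1 V).1

theorem low_of_gt (hS : S.Good) (hT : ThinY S Ψ) (hΨ : ∀ F ∈ Ψ, ∃ d, IsFormY S F d)
    (h : AllGeneralTypeY S Ψ) : LowGenusY S (zpy Ψ) := by
  intro K _ _ _ z hK hp
  by_contra hdeg
  obtain ⟨P, hP, hff, m, hm1, hPm, -, hc⟩ := curve hS hT hΨ hp hdeg
  have hle : zidY S Ψ ≤ P := hPm.1.2
  have hd : Algebra.trdeg k (FP P) = (1 : ℕ) := by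
    rw [IsFF.trdeg (k := k) (K := FP P)]
    simp
  have h1 := h (FP P) 1 (gz P) le_rfl (gz_sub hS hle hd)
  have h2 := Pool.Agent.Y741.gt_canDeg h1
  have h3 : (1 : ℤ) ≤ m := by exact_mod_cast hm1
  nlinarith

/-- the function field of a subvariety of dimension one -/
theorem isFF_sub {K : Type} [Field K] [Algebra k K] (hS : S.Good)
    (hΨ : ∀ F ∈ Ψ, ∃ d, IsFormY S F d) {z : IY N n r → K} (V : SubY S Ψ 1 z) : IsFF k K := by
  refine ⟨?_, by rw [V.dim]; simp⟩
  obtain ⟨t0, t, h0, ht, hN⟩ := exists_nrm V.point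
  have V' := V.sc hS hΨ h0 ht
  have h1 : IntermediateField.adjoin k (Set.range (sc S t0 t z)) = ⊤ :=
    top_leY V' fun v => IntermediateField.subset_adjoin k _ ⟨v, rfl⟩
  rw [← IntermediateField.fg_top_iff, ← h1]
  exact IntermediateField.fg_adjoin_of_finite (Set.finite_range _)

theorem gt_of_low (hS : S.Good) (hT : ThinY S Ψ) (hΨ : ∀ F ∈ Ψ, ∃ d, IsFormY S F d)
    (hF : FiniteOver S Ψ) (h : LowGenusY S (zpy Ψ)) : AllGeneralTypeY S Ψ := by
  intro K _ _ d z hd V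
  rcases dich V.point with ⟨i, hi⟩ | hz
  · exact general_typeY hS hΨ hF hd V hi
  have hw := (point_zpy.1 hz).2
  obtain rfl : d = 1 := le_antisymm (hT K d z (sub_zpy.2 ⟨V, hw⟩)) hd
  have hff := isFF_sub hS hΨ V
  refine Pool.Agent.P8H10.HG.gt_of_canDeg ?_
  by_contra hcon
  have hd0 := h K z (not_lt.1 hcon) hz
  obtain ⟨t0, t, h0, ht, hN⟩ := exists_nrm V.point
  have V' := V.sc hS hΨ h0 ht
  rw [← degree_sc (S := S) (t0 := t0) ht z] at hd0
  set z' := sc S t0 t z with hz'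
  unfold P8H50.SG.degree at hd0
  rw [Finset.sum_eq_zero_iff_of_nonneg fun j _ => hgt_nonneg _] at hd0
  have h2 : IntermediateField.adjoin k (Set.range fun j => cx z' j / cy z' j) ≤ ⊥ := by
    rw [IntermediateField.adjoin_le_iff]
    rintro _ ⟨j, rfl⟩
    obtain ⟨c, hc⟩ := const_of_hgt (hd0 j (Finset.mem_univ j)).le
    change cx z' j / cy z' j ∈ _
    rw [hc]
    exact (⊥ : IntermediateField k K).algebraMap_mem c
  have halg := alg_le h2 (hF K 1 z' V')
  have h6 : Algebra.IsAlgebraic k (⊥ : IntermediateField k K) := by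
    refine ⟨fun ⟨u, hu⟩ => ?_⟩
    obtain ⟨c, rfl⟩ := IntermediateField.mem_bot.1 hu
    exact isAlgebraic_algebraMap c
  have h3 : Algebra.IsAlgebraic k K := Algebra.IsAlgebraic.trans k (⊥ : IntermediateField k K) K
  have h4 := V.dim
  rw [_root_.trdeg_eq_zero] at h4
  have h5 : (0 : ℕ) = 1 := by exact_mod_cast h4
  omega

theorem alg_of_low (hS : S.Good) (hT : ThinY S Ψ) (hΨ : ∀ F ∈ Ψ, ∃ d, IsFormY S F d)
    (h : LowGenusY S (zpy Ψ)) : ∃ A, AlgHypY S Ψ A := by
  rw [alg_iff hS]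
  exact exists_bound_zero hS hT hΨ h

/-- **Equivalence of the notions of hyperbolicity.** -/
theorem tfae (hS : S.Good) (hT : ThinY S Ψ) (hΨ : ∀ F ∈ Ψ, ∃ d, IsFormY S F d)
    (hF : FiniteOver S Ψ) :
    [∃ A, AlgHypY S Ψ A, BoundedY S Ψ, LowGenusY S Ψ, AllGeneralTypeY S Ψ,
      LowGenusY S (zpy Ψ)].TFAE := by
  tfae_have 1 → 2 := fun ⟨A, hA⟩ K _ _ _ => ⟨A * max (canDeg k K) 0, fun z h => hA K z h⟩
  tfae_have 2 → 3 := low_of_bdd
  tfae_have 3 → 5 := (low_iff hS).1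
  tfae_have 4 → 5 := low_of_gt hS hT hΨ
  tfae_have 5 → 4 := gt_of_low hS hT hΨ hF
  tfae_have 5 → 1 := alg_of_low hS hT hΨ
  tfae_finish

/-- the part over the zero locus has dimension at most `n - r` -/
theorem thin_of_le (hS : S.Good) (hΨ : ∀ F ∈ Ψ, ∃ d, IsFormY S F d) (hF : FiniteOver S Ψ)
    (hn : n ≤ r + 1) : ThinY S Ψ := by
  intro K _ _ d z V
  obtain ⟨V1, hw⟩ := sub_zpy.1 V
  have := dim_zeroY hS hΨ hF V1 hw
  omega

end

end Pool.Agent.P8H10.HY
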